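import Pool.Agent.Helper68.VN.GoalsN
import Pool.Agent.Helper71.SGT.NQH

/-!
# Project PG (MP_a41896_nt), packet NHB (helper66): heights from bounds of the coefficients
-/

set_option autoImplicit false

open MvPolynomial

namespace Pool.Agent.Helper66.VN.NHB

open WeierstrassCurve Height Height.AdmissibleAbsValues
open Pool.Agent.Helper29.BL Pool.Agent.Helper92.Ru Pool.Agent.Helper42.SG
open Pool.Agent.Helper71.SGT

theorem t_NHB : Pool.Agent.Helper68.VN.NHB := by
  intro K _ _ B hB
  refine ⟨max (totalWeight K : ℝ) (PS fun v => Real.log (B v)), ?_, ?_⟩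
  · exact le_max_of_le_left (Nat.cast_nonneg _)
  · intro V _ N M A p hA h
    have hexp : (1 : ℝ) ≤ Real.exp A := Real.one_le_exp hA
    have hF1 : FS (K := K) fun v => (M : ℝ) * Real.log (cst v (Real.exp A)) :=
      (FS_log_cst (Real.exp A)).const_mul _
    have hF2 : FS (K := K) fun v => (N : ℝ) * Real.log (B v) := hB.fin.const_mul _
    have h1 := log_PH_le p (fun v => (M : ℝ) * Real.log (cst v (Real.exp A)) +
      (N : ℝ) * Real.log (B v)) (hF1.add hF2)
      (fun v => add_nonneg (mul_nonneg (Nat.cast_nonneg _)
        (Real.log_nonneg (one_le_cst v hexp))) (mul_nonneg (Nat.cast_nonneg _)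
        (Real.log_nonneg (hB.one_le v))))
      (by
        intro v hv m
        refine (h v hv m).trans (le_of_eq ?_)
        rw [Real.exp_add, mul_comm (M : ℝ), mul_comm (N : ℝ), Real.exp_mul, Real.exp_mul,
          Real.exp_log (cst_pos v hexp), Real.exp_log (lt_of_lt_of_le one_pos (hB.one_le v)),
          Real.rpow_natCast, Real.rpow_natCast])
    rw [PS_add hF1 hF2, PS_const_mul, PS_const_mul] at h1
    have h2 := PS_log_cst (K := K) hexp
    rw [Real.log_exp] at h2
    refine h1.trans ?_
    have h3 : (M : ℝ) * PS (fun v : AbsoluteValue K ℝ => Real.log (cst v (Real.exp A))) ≤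
        max (totalWeight K : ℝ) (PS fun v => Real.log (B v)) * (M * A) := by
      calc (M : ℝ) * PS (fun v : AbsoluteValue K ℝ => Real.log (cst v (Real.exp A)))
          ≤ M * (totalWeight K * A) := by gcongr
        _ = totalWeight K * (M * A) := by ring
        _ ≤ _ := by
          gcongr
          exact le_max_left _ _
    have h4 : (N : ℝ) * PS (fun v : AbsoluteValue K ℝ => Real.log (B v)) ≤
        max (totalWeight K : ℝ) (PS fun v => Real.log (B v)) * N := by
      rw [mul_comm]
      gcongr
      exact le_max_right _ _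
    rw [mul_add]
    exact add_le_add h3 h4

end Pool.Agent.Helper66.VN.NHB
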